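import Pool.Agent.Helper20.HP.Data2
import Pool.Agent.Helper20.PC.Sph

/-!
# HOPF-Q2: smoothness and curvature of the connection form
-/

open Filter Metric Module Set
open scoped Topology ContDiff RealInnerProductSpace Manifold Quaternion

namespace Pool.Agent.Helper57.HP
open Pool.Agent.Helper20.PC Pool.Agent.Helper20.HP

/-! ### elementary facts -/

lemma contDiff_coord (i : Fin 3) {n : WithTop ℕ∞} : ContDiff ℝ n (fun x : E3 => x i) :=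
  (EuclideanSpace.proj i : E3 →L[ℝ] ℝ).contDiff

lemma contDiff_sg (κ : ℝ) {n : WithTop ℕ∞} : ContDiff ℝ n (sg κ) := by
  have h0 := contDiff_coord 0 (n := n)
  have h1 := contDiff_coord 1 (n := n)
  have h2 := contDiff_coord 2 (n := n)
  have e : sg κ = fun x : E3 => 1 - κ * (x 0 * (x 1 + x 2) + (x 1 + x 2) * x 0) := rfl
  rw [e]
  exact contDiff_const.sub (contDiff_const.mul ((h0.mul (h1.add h2)).add ((h1.add h2).mul h0)))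

lemma contDiff_rr (ε : ℝ) {n : WithTop ℕ∞} : ContDiff ℝ n (rr ε) := by
  have e : rr ε = fun x : E3 => 1/2 + ε * x 2 := rfl
  rw [e]
  exact contDiff_const.add (contDiff_const.mul (contDiff_coord 2))

/-- `Hv` as a continuous linear map. -/
noncomputable def HvL : E3 →L[ℝ] E3 :=
  LinearMap.toContinuousLinearMap
    { toFun := Hv
      map_add' := fun p q => by ext i; fin_cases i <;> simp [Hv] <;> ring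
      map_smul' := fun r q => by ext i; fin_cases i <;> simp [Hv, mul_add] }

lemma HvL_apply (x : E3) : HvL x = Hv x := rfl

lemma norm_sq_E3 (x : E3) : ‖x‖ ^ 2 = x 0 ^ 2 + x 1 ^ 2 + x 2 ^ 2 := by
  rw [EuclideanSpace.norm_sq_eq, Fin.sum_univ_three]
  simp

lemma inner_E3 (x y : E3) : ⟪x, y⟫ = x 0 * y 0 + x 1 * y 1 + x 2 * y 2 := by
  rw [PiLp.inner_apply, Fin.sum_univ_three]
  simp [mul_comm]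

lemma norm_nn {x : E3} (hx : x ≠ 0) : ‖nn x‖ = 1 := by
  have h : ‖x‖ ≠ 0 := norm_ne_zero_iff.2 hx
  rw [nn, norm_smul, norm_inv, norm_norm, inv_mul_cancel₀ h]

lemma sg_pos_of_unit {κ : ℝ} (hκ : |κ| ≤ 1/10) {y : E3} (hy : ‖y‖ = 1) : 0 < sg κ y := by
  have h1 := norm_sq_E3 y
  rw [hy] at h1
  have e : sg κ y = 1 - κ * (y 0 * (y 1 + y 2) + (y 1 + y 2) * y 0) := rfl
  have h2 : |y 0 * (y 1 + y 2) + (y 1 + y 2) * y 0| ≤ 2 := by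
    rw [abs_le]
    constructor <;> nlinarith [sq_nonneg (y 0 - y 1), sq_nonneg (y 0 + y 1), sq_nonneg (y 0 - y 2),
      sq_nonneg (y 0 + y 2), sq_nonneg (y 1 - y 2), sq_nonneg (y 1 + y 2)]
  have h3 : |κ * (y 0 * (y 1 + y 2) + (y 1 + y 2) * y 0)| ≤ 1/10 * 2 := by
    rw [abs_mul]
    exact mul_le_mul hκ h2 (abs_nonneg _) (by norm_num)
  have h4 := (abs_le.1 h3).2
  rw [e]; linarith

theorem contDiffAt_nn {x : E3} (hx : x ≠ 0) {n : WithTop ℕ∞} : ContDiffAt ℝ n nn x :=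
  ((contDiffAt_norm ℝ hx).inv (norm_ne_zero_iff.2 hx)).smul contDiffAt_id

-- Q2a
theorem contDiffAt_AE {κ ε : ℝ} (hκ : |κ| ≤ 1/10) {x : E3} (hx : x ≠ 0) : ContDiffAt ℝ 2 (AE κ ε) x := by
  have hn := contDiffAt_nn hx (n := 2)
  have hs : ContDiffAt ℝ 2 (fun x => sg κ (nn x)) x := (contDiff_sg κ).contDiffAt.comp x hn
  have hs0 : sg κ (nn x) ≠ 0 := (sg_pos_of_unit hκ (norm_nn hx)).ne'
  have hr : ContDiffAt ℝ 2 (fun x => rr ε (nn x)) x := (contDiff_rr ε).contDiffAt.comp x hn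
  have hH : ContDiffAt ℝ 2 (fun x => Hv (nn x)) x := HvL.contDiff.contDiffAt.comp x hn
  have hcL : ContDiffAt ℝ 2 (fun x => crL (nn x)) x := crL.contDiff.contDiffAt.comp x hn
  have hc : ContDiffAt ℝ 2 (fun x => cr (nn x) (Hv (nn x))) x := hcL.clm_apply hH
  have hi : ContDiffAt ℝ 2 (fun x => (innerSL ℝ (cr (nn x) (Hv (nn x))) : E3 →L[ℝ] ℝ)) x :=
    (innerSL ℝ (E := E3)).contDiff.contDiffAt.comp x hc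
  have hA : ContDiffAt ℝ 2 (fun x => AvL κ ε (nn x)) x := by
    unfold AvL
    exact ContDiffAt.add ((((hr.div hs hs0).sub contDiffAt_const)).smul hcL)
      ((contDiffAt_const.div hs hs0).smul (hi.smulRight hn))
  have h1 : ContDiffAt ℝ 2 (fun x => AvL κ ε (nn x) ∘L dn x) x := hA.clm_comp (contDiffAt_dn hx)
  have h2 : ContDiffAt ℝ 2 (fun x => qimL ∘L (AvL κ ε (nn x) ∘L dn x)) x :=
    (contDiffAt_const (c := qimL)).clm_comp h1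
  exact (contDiffAt_const (c := (1/2 : ℝ))).smul h2

set_option linter.unusedSimpArgs false

/-! ### the algebra -/

/-- `s²` times the derivative of the form in the direction `u`, evaluated at `v`. -/
noncomputable def Dp (κ ε : ℝ) (y u v : E3) : E3 :=
  (ε * (u 2 - y 2 * ⟪y, u⟫) * sg κ y + 2 * κ * rr ε y * (Hb y u - ⟪y, u⟫ * Hb y y)
      - 2 * (rr ε y * sg κ y - sg κ y ^ 2) * ⟪y, u⟫) • cr y v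
    + (rr ε y * sg κ y - sg κ y ^ 2) • cr u v
    + (2 * κ * (2 * κ * (Hb y u - ⟪y, u⟫ * Hb y y) - 4 * ⟪y, u⟫ * sg κ y) * ⟪cr y (Hv y), v⟫) • y
    + (2 * κ * sg κ y * ⟪cr u (Hv y) + cr y (Hv u), v⟫) • y
    + (2 * κ * sg κ y * ⟪cr y (Hv y), v⟫) • u

/-- `s` times the form. -/
noncomputable def Gp (κ ε : ℝ) (y u : E3) : E3 :=
  (rr ε y - sg κ y) • cr y u + (2 * κ * ⟪cr y (Hv y), u⟫) • y

lemma cr_0 (a b : E3) : cr a b 0 = a 1 * b 2 - a 2 * b 1 := by simp [cr]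
lemma cr_1 (a b : E3) : cr a b 1 = a 2 * b 0 - a 0 * b 2 := by simp [cr]
lemma cr_2 (a b : E3) : cr a b 2 = a 0 * b 1 - a 1 * b 0 := by simp [cr]
lemma Hv_0 (a : E3) : Hv a 0 = a 1 + a 2 := by simp [Hv]
lemma Hv_1 (a : E3) : Hv a 1 = a 0 := by simp [Hv]
lemma Hv_2 (a : E3) : Hv a 2 = a 0 := by simp [Hv]
lemma e3_0 : e3 0 = 0 := by simp [e3]
lemma e3_1 : e3 1 = 0 := by simp [e3]
lemma e3_2 : e3 2 = 1 := by simp [e3]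
lemma Hb_eq (x y : E3) : Hb x y = x 0 * (y 1 + y 2) + (x 1 + x 2) * y 0 := rfl
lemma sg_eq (κ : ℝ) (x : E3) : sg κ x = 1 - κ * (x 0 * (x 1 + x 2) + (x 1 + x 2) * x 0) := rfl
lemma rr_eq (ε : ℝ) (x : E3) : rr ε x = 1/2 + ε * x 2 := rfl

theorem alg_key (κ ε : ℝ) (y u v : E3) (hy : y 0 ^ 2 + y 1 ^ 2 + y 2 ^ 2 = 1) :
    Dp κ ε y u v - Dp κ ε y v u + cr (Gp κ ε y u) (Gp κ ε y v) = ⟪y, cr u v⟫ • om κ ε y := by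
  ext i
  fin_cases i
  · simp only [Fin.zero_eta, Fin.isValue, Dp, Gp, om, Kc, PiLp.add_apply, PiLp.sub_apply, PiLp.smul_apply, PiLp.neg_apply,
      smul_eq_mul, cr_0, cr_1, cr_2, Hv_0, Hv_1, Hv_2, e3_0, e3_1, e3_2, Hb_eq, sg_eq, rr_eq,
      inner_E3, norm_sq_E3]
    linear_combination (- 8*y 0^3*y 1*u 0*v 1*κ^2 + 8*y 0^3*y 1*u 0*v 2*κ^2 + 8*y 0^3*y 1*u 1*v 0*κ^2 - 8*y 0^3*y 1*u 2*v 0*κ^2 - 8*y 0^3*y 2*u 0*v 1*κ^2 + 8*y 0^3*y 2*u 0*v 2*κ^2 + 8*y 0^3*y 2*u 1*v 0*κ^2 - 8*y 0^3*y 2*u 2*v 0*κ^2 + 4*y 0^2*y 1^2*u 1*v 2*κ^2 - 4*y 0^2*y 1^2*u 2*v 1*κ^2 + 8*y 0^2*y 1*y 2*u 1*v 2*κ^2 - 8*y 0^2*y 1*y 2*u 2*v 1*κ^2 + 4*y 0^2*y 2^2*u 1*v 2*κ^2 - 4*y 0^2*y 2^2*u 2*v 1*κ^2 + 8*y 0^2*u 0*v 1*κ - 8*y 0^2*u 0*v 2*κ - 8*y 0^2*u 1*v 0*κ + 8*y 0^2*u 2*v 0*κ - 4*y 0*y 1^3*u 0*v 2*κ^2 + 4*y 0*y 1^3*u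 2*v 0*κ^2 + 4*y 0*y 1^2*y 2*u 0*v 1*κ^2 - 8*y 0*y 1^2*y 2*u 0*v 2*κ^2 - 4*y 0*y 1^2*y 2*u 1*v 0*κ^2 + 8*y 0*y 1^2*y 2*u 2*v 0*κ^2 + 8*y 0*y 1*y 2^2*u 0*v 1*κ^2 - 4*y 0*y 1*y 2^2*u 0*v 2*κ^2 - 8*y 0*y 1*y 2^2*u 1*v 0*κ^2 + 4*y 0*y 1*y 2^2*u 2*v 0*κ^2 + 4*y 0*y 1*y 2*u 1*v 2*κ*ε - 4*y 0*y 1*y 2*u 2*v 1*κ*ε - y 0*y 1*u 1*v 2*κ + y 0*y 1*u 2*v 1*κ + 4*y 0*y 2^3*u 0*v 1*κ^2 - 4*y 0*y 2^3*u 1*v 0*κ^2 + 4*y 0*y 2^2*u 1*v 2*κ*ε - 4*y 0*y 2^2*u 2*v 1*κ*ε - y 0*y 2*u 1*v 2*κ + y 0*y 2*u 2*v 1*κ - 2*y 1^2*y 2*u 0*v 2*κ*ε + 2*y 1^2*y 2*u 2*v 0*κ*ε + y 1^2*u 0*v 2*κ - y 1^2*u 2*v 0*κ + 2*y 1*y 2^2*u 0*v 1*κ*ε - 2*y 1*y 2^2*u 0*v 2*κ*ε - 2*y 1*y 2^2*u 1*v 0*κ*ε + 2*y 1*y 2^2*u 2*v 0*κ*ε - y 1*y 2*u 0*v 1*κ + y 1*y 2*u 0*v 2*κ + y 1*y 2*u 1*v 0*κ - y 1*y 2*u 2*v 0*κ + 2*y 2^3*u 0*v 1*κ*ε - 2*y 2^3*u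 1*v 0*κ*ε - y 2^2*u 0*v 1*κ + y 2^2*u 1*v 0*κ - 3*y 2*u 1*v 2*ε + 3*y 2*u 2*v 1*ε + u 1*v 2 - u 2*v 1) * hy
  · simp only [Fin.mk_one, Fin.isValue, Dp, Gp, om, Kc, PiLp.add_apply, PiLp.sub_apply, PiLp.smul_apply, PiLp.neg_apply,
      smul_eq_mul, cr_0, cr_1, cr_2, Hv_0, Hv_1, Hv_2, e3_0, e3_1, e3_2, Hb_eq, sg_eq, rr_eq,
      inner_E3, norm_sq_E3]
    linear_combination (4*y 0^3*y 1*u 1*v 2*κ^2 - 4*y 0^3*y 1*u 2*v 1*κ^2 + 4*y 0^3*y 2*u 1*v 2*κ^2 - 4*y 0^3*y 2*u 2*v 1*κ^2 - 8*y 0^2*y 1^2*u 0*v 1*κ^2 - 4*y 0^2*y 1^2*u 0*v 2*κ^2 + 8*y 0^2*y 1^2*u 1*v 0*κ^2 + 4*y 0^2*y 1^2*u 2*v 0*κ^2 - 4*y 0^2*y 1*y 2*u 0*v 1*κ^2 - 12*y 0^2*y 1*y 2*u 0*v 2*κ^2 + 4*y 0^2*y 1*y 2*u 1*v 0*κ^2 + 12*y 0^2*y 1*y 2*u 2*v 0*κ^2 + 4*y 0^2*y 2^2*u 0*v 1*κ^2 - 8*y 0^2*y 2^2*u 0*v 2*κ^2 - 4*y 0^2*y 2^2*u 1*v 0*κ^2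 + 8*y 0^2*y 2^2*u 2*v 0*κ^2 + 2*y 0^2*y 2*u 1*v 2*κ*ε - 2*y 0^2*y 2*u 2*v 1*κ*ε - y 0^2*u 1*v 2*κ + y 0^2*u 2*v 1*κ - 8*y 0*y 1^3*u 1*v 2*κ^2 + 8*y 0*y 1^3*u 2*v 1*κ^2 - 16*y 0*y 1^2*y 2*u 1*v 2*κ^2 + 16*y 0*y 1^2*y 2*u 2*v 1*κ^2 - 8*y 0*y 1*y 2^2*u 1*v 2*κ^2 + 8*y 0*y 1*y 2^2*u 2*v 1*κ^2 - 4*y 0*y 1*y 2*u 0*v 2*κ*ε + 4*y 0*y 1*y 2*u 2*v 0*κ*ε + 8*y 0*y 1*u 0*v 1*κ + y 0*y 1*u 0*v 2*κ - 8*y 0*y 1*u 1*v 0*κ - y 0*y 1*u 2*v 0*κ + 2*y 0*y 2^2*u 0*v 1*κ*ε - 2*y 0*y 2^2*u 0*v 2*κ*ε - 2*y 0*y 2^2*u 1*v 0*κ*ε + 2*y 0*y 2^2*u 2*v 0*κ*ε - y 0*y 2*u 0*v 1*κ + 8*y 0*y 2*u 0*v 2*κ + y 0*y 2*u 1*v 0*κ - 8*y 0*y 2*u 2*v 0*κ + 8*y 1^2*u 1*v 2*κ - 8*y 1^2*u 2*v 1*κ + 8*y 1*y 2*u 1*v 2*κ - 8*y 1*y 2*u 2*v 1*κ + 3*y 2*u 0*v 2*ε - 3*y 2*u 2*v 0*ε - u 0*v 2 + u 2*v 0) * hy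
  · simp only [Fin.reduceFinMk, Fin.isValue, Dp, Gp, om, Kc, PiLp.add_apply, PiLp.sub_apply, PiLp.smul_apply, PiLp.neg_apply,
      smul_eq_mul, cr_0, cr_1, cr_2, Hv_0, Hv_1, Hv_2, e3_0, e3_1, e3_2, Hb_eq, sg_eq, rr_eq,
      inner_E3, norm_sq_E3]
    linear_combination (4*y 0^3*y 1*u 1*v 2*κ^2 - 4*y 0^3*y 1*u 2*v 1*κ^2 + 4*y 0^3*y 2*u 1*v 2*κ^2 - 4*y 0^3*y 2*u 2*v 1*κ^2 + 8*y 0^2*y 1^2*u 0*v 1*κ^2 - 4*y 0^2*y 1^2*u 0*v 2*κ^2 - 8*y 0^2*y 1^2*u 1*v 0*κ^2 + 4*y 0^2*y 1^2*u 2*v 0*κ^2 + 12*y 0^2*y 1*y 2*u 0*v 1*κ^2 + 4*y 0^2*y 1*y 2*u 0*v 2*κ^2 - 12*y 0^2*y 1*y 2*u 1*v 0*κ^2 - 4*y 0^2*y 1*y 2*u 2*v 0*κ^2 + 4*y 0^2*y 2^2*u 0*v 1*κ^2 + 8*y 0^2*y 2^2*u 0*v 2*κ^2 - 4*y 0^2*y 2^2*u 1*v 0*κ^2 - 8*y 0^2*y 2^2*u 2*v 0*κ^2 + 2*y 0^2*y 2*u 1*v 2*κ*ε - 2*y 0^2*y 2*u 2*v 1*κ*ε - y 0^2*u 1*v 2*κ + y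 0^2*u 2*v 1*κ - 8*y 0*y 1^2*y 2*u 1*v 2*κ^2 + 8*y 0*y 1^2*y 2*u 2*v 1*κ^2 - 16*y 0*y 1*y 2^2*u 1*v 2*κ^2 + 16*y 0*y 1*y 2^2*u 2*v 1*κ^2 + 2*y 0*y 1*y 2*u 0*v 1*κ*ε - 2*y 0*y 1*y 2*u 0*v 2*κ*ε - 2*y 0*y 1*y 2*u 1*v 0*κ*ε + 2*y 0*y 1*y 2*u 2*v 0*κ*ε - 8*y 0*y 1*u 0*v 1*κ + y 0*y 1*u 0*v 2*κ + 8*y 0*y 1*u 1*v 0*κ - y 0*y 1*u 2*v 0*κ - 8*y 0*y 2^3*u 1*v 2*κ^2 + 8*y 0*y 2^3*u 2*v 1*κ^2 + 4*y 0*y 2^2*u 0*v 1*κ*ε - 4*y 0*y 2^2*u 1*v 0*κ*ε - y 0*y 2*u 0*v 1*κ - 8*y 0*y 2*u 0*v 2*κ + y 0*y 2*u 1*v 0*κ + 8*y 0*y 2*u 2*v 0*κ + 8*y 1*y 2*u 1*v 2*κ - 8*y 1*y 2*u 2*v 1*κ + 8*y 2^2*u 1*v 2*κ - 8*y 2^2*u 2*v 1*κ - 3*y 2*u 0*v 1*ε + 3*y 2*u 1*v 0*ε + u 0*v 1 - u 1*v 0) * hy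

/-! ### derivatives along lines -/

/-- the form in terms of `ρ = |x|⁻¹`. -/
noncomputable def Fx (κ ε ρ : ℝ) (x v : E3) : E3 :=
  (((1/2 + ε * (ρ * x 2)) / (1 - κ * (ρ ^ 2 * Hb x x)) - 1) * ρ ^ 2) • cr x v
    + ((2 * κ / (1 - κ * (ρ ^ 2 * Hb x x)) * ρ ^ 4) * ⟪cr x (Hv x), v⟫) • x

lemma sg_nn (κ : ℝ) (x : E3) : sg κ (nn x) = 1 - κ * (‖x‖⁻¹ ^ 2 * Hb x x) := by
  simp only [sg_eq, Hb_eq, nn, PiLp.smul_apply, smul_eq_mul]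
  ring

lemma rr_nn (ε : ℝ) (x : E3) : rr ε (nn x) = 1/2 + ε * (‖x‖⁻¹ * x 2) := by
  simp only [rr_eq, nn, PiLp.smul_apply, smul_eq_mul]

lemma Av_nn (κ ε : ℝ) {x : E3} (hx : x ≠ 0) (v : E3) :
    AvL κ ε (nn x) (dn x v) = Fx κ ε ‖x‖⁻¹ x v := by
  have hn : ‖x‖ ≠ 0 := norm_ne_zero_iff.2 hx
  rw [AvL_apply, Av, sg_nn, rr_nn, Fx]
  have h1 : cr (nn x) (dn x v) = ‖x‖⁻¹ ^ 2 • cr x v := by
    rw [dn_apply, nn]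
    ext i
    fin_cases i <;> simp only [Fin.zero_eta, Fin.mk_one, Fin.reduceFinMk, Fin.isValue, cr_0, cr_1, cr_2,
      PiLp.smul_apply, PiLp.sub_apply, smul_eq_mul] <;> ring
  have h2 : ⟪cr (nn x) (Hv (nn x)), dn x v⟫ • nn x = (‖x‖⁻¹ ^ 4 * ⟪cr x (Hv x), v⟫) • x := by
    rw [dn_apply, nn]
    ext i
    simp only [inner_E3, cr_0, cr_1, cr_2, Hv_0, Hv_1, Hv_2, PiLp.smul_apply, PiLp.sub_apply, smul_eq_mul]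
    ring
  rw [h1, smul_smul]
  have h3 : (2 * κ / (1 - κ * (‖x‖⁻¹ ^ 2 * Hb x x)) * ⟪cr (nn x) (Hv (nn x)), dn x v⟫) • nn x
      = (2 * κ / (1 - κ * (‖x‖⁻¹ ^ 2 * Hb x x)) * ‖x‖⁻¹ ^ 4 * ⟪cr x (Hv x), v⟫) • x := by
    rw [mul_smul, h2, smul_smul]
    congr 1
    ring
  rw [h3]

lemma AE_eq (κ ε : ℝ) {x : E3} (hx : x ≠ 0) (v : E3) :
    AE κ ε x v = (1/2 : ℝ) • qimL (Fx κ ε ‖x‖⁻¹ x v) := by
  rw [← Av_nn κ ε hx v]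
  rfl

lemma hasDerivAt_line (x u : E3) : HasDerivAt (fun t : ℝ => x + t • u) u 0 := by
  have h : HasDerivAt (fun t : ℝ => x + t • u) ((1 : ℝ) • u) 0 :=
    ((hasDerivAt_id (0 : ℝ)).smul_const u).const_add x
  exact h.congr_deriv (one_smul _ _)

lemma hasDerivAt_coord (x u : E3) (i : Fin 3) : HasDerivAt (fun t : ℝ => (x + t • u) i) (u i) 0 := by
  have h := (EuclideanSpace.proj i : E3 →L[ℝ] ℝ).hasFDerivAt.comp_hasDerivAt (0 : ℝ) (hasDerivAt_line x u)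
  exact h

lemma hasDerivAt_rho {x : E3} (hx : x ≠ 0) (u : E3) :
    HasDerivAt (fun t : ℝ => ‖x + t • u‖⁻¹) (-(‖x‖⁻¹ ^ 3 * ⟪x, u⟫)) 0 := by
  have hn : ‖x‖ ≠ 0 := norm_ne_zero_iff.2 hx
  have h1 : HasDerivAt (fun t : ℝ => ‖x + t • u‖ ^ 2) (2 * ⟪x + (0 : ℝ) • u, u⟫) 0 :=
    (hasDerivAt_line x u).norm_sq
  have h2 : HasDerivAt (fun t : ℝ => √(‖x + t • u‖ ^ 2))
      (2 * ⟪x + (0 : ℝ) • u, u⟫ / (2 * √(‖x + (0 : ℝ) • u‖ ^ 2))) 0 :=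
    h1.sqrt (by simpa using hn)
  have e : (fun t : ℝ => √(‖x + t • u‖ ^ 2)) = fun t : ℝ => ‖x + t • u‖ :=
    funext fun t => Real.sqrt_sq (norm_nonneg _)
  rw [e, Real.sqrt_sq (norm_nonneg _)] at h2
  have h4 : HasDerivAt (fun t : ℝ => ‖x + t • u‖⁻¹)
      (-(2 * ⟪x + (0 : ℝ) • u, u⟫ / (2 * ‖x + (0 : ℝ) • u‖)) / ‖x + (0 : ℝ) • u‖ ^ 2) 0 :=
    h2.inv (by simpa using hn)
  refine h4.congr_deriv ?_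
  rw [zero_smul, add_zero]
  field_simp

lemma hasDerivAt_Fx {κ ε : ℝ} (hκ : |κ| ≤ 1/10) {x : E3} (hx : x ≠ 0) (u v : E3) :
    HasDerivAt (fun t : ℝ => Fx κ ε ‖x + t • u‖⁻¹ (x + t • u) v)
      ((‖x‖⁻¹ ^ 2 * (sg κ (nn x) ^ 2)⁻¹) • Dp κ ε (nn x) u v) 0 := by
  have hn : ‖x‖ ≠ 0 := norm_ne_zero_iff.2 hx
  have hs0 : sg κ (nn x) ≠ 0 := (sg_pos_of_unit hκ (norm_nn hx)).ne'
  have hρ := hasDerivAt_rho hx u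
  have hX := hasDerivAt_line x u
  have h0 := hasDerivAt_coord x u 0
  have h1 := hasDerivAt_coord x u 1
  have h2 := hasDerivAt_coord x u 2
  have hq : HasDerivAt (fun t : ℝ => Hb (x + t • u) (x + t • u)) (2 * Hb x u) 0 := by
    have h : HasDerivAt (fun t : ℝ => (x + t • u) 0 * ((x + t • u) 1 + (x + t • u) 2)
        + ((x + t • u) 1 + (x + t • u) 2) * (x + t • u) 0) _ 0 :=
      (h0.fun_mul (h1.fun_add h2)).fun_add ((h1.fun_add h2).fun_mul h0)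
    refine h.congr_deriv ?_
    simp only [Hb_eq, zero_smul, add_zero]
    ring
  have hρ2 : HasDerivAt (fun t : ℝ => ‖x + t • u‖⁻¹ ^ 2) (2 * ‖x‖⁻¹ * -(‖x‖⁻¹ ^ 3 * ⟪x, u⟫)) 0 := by
    refine (hρ.fun_pow 2).congr_deriv ?_
    simp only [zero_smul, add_zero]
    norm_num
  have hρ4 : HasDerivAt (fun t : ℝ => ‖x + t • u‖⁻¹ ^ 4) (4 * ‖x‖⁻¹ ^ 3 * -(‖x‖⁻¹ ^ 3 * ⟪x, u⟫)) 0 := by
    refine (hρ.fun_pow 4).congr_deriv ?_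
    simp only [zero_smul, add_zero]
    norm_num
  have hs : HasDerivAt (fun t : ℝ => 1 - κ * (‖x + t • u‖⁻¹ ^ 2 * Hb (x + t • u) (x + t • u)))
      (-(κ * (2 * ‖x‖⁻¹ * (-(‖x‖⁻¹ ^ 3 * ⟪x, u⟫)) * Hb x x + ‖x‖⁻¹ ^ 2 * (2 * Hb x u)))) 0 := by
    refine (((hρ2.fun_mul hq).const_mul κ).const_sub 1).congr_deriv ?_
    simp only [zero_smul, add_zero]
  have hr : HasDerivAt (fun t : ℝ => 1/2 + ε * (‖x + t • u‖⁻¹ * (x + t • u) 2))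
      (ε * (-(‖x‖⁻¹ ^ 3 * ⟪x, u⟫) * x 2 + ‖x‖⁻¹ * u 2)) 0 := by
    refine (((hρ.fun_mul h2).const_mul ε).const_add (1/2)).congr_deriv ?_
    simp only [zero_smul, add_zero]
  have hs1 : 1 - κ * (‖x + (0 : ℝ) • u‖⁻¹ ^ 2 * Hb (x + (0 : ℝ) • u) (x + (0 : ℝ) • u)) ≠ 0 := by
    rw [zero_smul, add_zero, ← sg_nn]; exact hs0
  have hf := ((hr.fun_div hs hs1).sub_const 1).fun_mul hρ2
  have hg := ((hasDerivAt_const (0 : ℝ) (2 * κ)).fun_div hs hs1).fun_mul hρ4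
  have hc : HasDerivAt (fun t : ℝ => cr (x + t • u) v) (cr u v) 0 :=
    (((crL.flip v).hasFDerivAt).comp_hasDerivAt (0 : ℝ) hX : _)
  have hp : HasDerivAt (fun t : ℝ => ⟪cr (x + t • u) (Hv (x + t • u)), v⟫)
      ⟪cr u (Hv x) + cr x (Hv u), v⟫ 0 := by
    have e : (fun t : ℝ => ⟪cr (x + t • u) (Hv (x + t • u)), v⟫)
        = fun t : ℝ => ⟪cr x (Hv x), v⟫ + (t * ⟪cr u (Hv x) + cr x (Hv u), v⟫
          + t ^ 2 * ⟪cr u (Hv u), v⟫) := by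
      funext t
      simp only [inner_E3, cr_0, cr_1, cr_2, Hv_0, Hv_1, Hv_2, PiLp.smul_apply, PiLp.add_apply, smul_eq_mul]
      ring
    rw [e]
    refine ((((hasDerivAt_id' (0 : ℝ)).mul_const ⟪cr u (Hv x) + cr x (Hv u), v⟫).fun_add
      (((hasDerivAt_id' (0 : ℝ)).fun_pow 2).mul_const ⟪cr u (Hv u), v⟫)).const_add
      ⟪cr x (Hv x), v⟫).congr_deriv ?_
    simp
  have hF := (hf.fun_smul hc).fun_add ((hg.fun_mul hp).fun_smul hX)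
  refine HasDerivAt.congr_deriv (f := fun t : ℝ => Fx κ ε ‖x + t • u‖⁻¹ (x + t • u) v) hF ?_
  have hx' : x = ‖x‖ • nn x := by rw [nn, smul_smul, mul_inv_cancel₀ hn, one_smul]
  simp only [zero_smul, add_zero]
  set n := ‖x‖ with hndef
  set y := nn x with hydef
  have hs2 : 1 - κ * (n⁻¹ ^ 2 * Hb x x) = sg κ y := (sg_nn κ x).symm
  rw [hs2]
  clear hs2
  clear hf hg hF hp hc hr hs hρ hρ2 hρ4 hq h0 h1 h2 hX hs1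
  have hxi : ∀ i, x i = n * y i := fun i => by
    have := congrArg (fun z : E3 => z i) hx'
    simpa using this
  have hHxx : Hb x x = n ^ 2 * Hb y y := by simp only [Hb_eq, hxi]; ring
  have hHxu : Hb x u = n * Hb y u := by simp only [Hb_eq, hxi]; ring
  have hxu : ⟪x, u⟫ = n * ⟪y, u⟫ := by simp only [inner_E3, hxi]; ring
  have hcv : cr x v = n • cr y v := by
    ext i
    fin_cases i <;> simp only [Fin.zero_eta, Fin.mk_one, Fin.reduceFinMk, Fin.isValue, cr_0, cr_1, cr_2,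
      PiLp.smul_apply, smul_eq_mul, hxi] <;> ring
  have hpx : ⟪cr x (Hv x), v⟫ = n ^ 2 * ⟪cr y (Hv y), v⟫ := by
    simp only [inner_E3, cr_0, cr_1, cr_2, Hv_0, Hv_1, Hv_2, hxi]; ring
  have hpu : ⟪cr u (Hv x) + cr x (Hv u), v⟫ = n * ⟪cr u (Hv y) + cr y (Hv u), v⟫ := by
    simp only [inner_E3, cr_0, cr_1, cr_2, Hv_0, Hv_1, Hv_2, hxi, PiLp.add_apply]; ring
  rw [hHxx, hHxu, hxu, hcv, hpx, hpu, hxi 2, Dp, rr_eq]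
  generalize sg κ y = s at hs0 ⊢
  generalize ⟪y, u⟫ = a1
  generalize Hb y u = a2
  generalize Hb y y = a3
  generalize ⟪cr y (Hv y), v⟫ = a4
  generalize ⟪cr u (Hv y) + cr y (Hv u), v⟫ = a5
  ext i
  simp only [PiLp.add_apply, PiLp.smul_apply, smul_eq_mul, hxi]
  generalize cr y v i = b1
  generalize cr u v i = b2
  field_simp
  ring

lemma fderiv_AE {κ ε : ℝ} (hκ : |κ| ≤ 1/10) {x : E3} (hx : x ≠ 0) (u v : E3) :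
    fderiv ℝ (AE κ ε) x u v
      = (1/2 : ℝ) • qimL ((‖x‖⁻¹ ^ 2 * (sg κ (nn x) ^ 2)⁻¹) • Dp κ ε (nn x) u v) := by
  have h1 : HasFDerivAt (AE κ ε) (fderiv ℝ (AE κ ε) x) x :=
    ((contDiffAt_AE (ε := ε) hκ hx).differentiableAt (by norm_num)).hasFDerivAt
  have h2 : HasDerivAt (fun t : ℝ => AE κ ε (x + t • u)) (fderiv ℝ (AE κ ε) x u) 0 := by
    have hX := hasDerivAt_line x u
    have h1' : HasFDerivAt (AE κ ε) (fderiv ℝ (AE κ ε) x) (x + (0 : ℝ) • u) := by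
      simpa using h1
    exact h1'.comp_hasDerivAt (0 : ℝ) hX
  have h3 : HasDerivAt (fun t : ℝ => AE κ ε (x + t • u) v) (fderiv ℝ (AE κ ε) x u v) 0 := by
    have := h2.clm_apply (hasDerivAt_const (0 : ℝ) v)
    simpa using this
  have h4 : HasDerivAt (fun t : ℝ => (1/2 : ℝ) • qimL (Fx κ ε ‖x + t • u‖⁻¹ (x + t • u) v))
      ((1/2 : ℝ) • qimL ((‖x‖⁻¹ ^ 2 * (sg κ (nn x) ^ 2)⁻¹) • Dp κ ε (nn x) u v)) 0 :=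
    (qimL.hasFDerivAt.comp_hasDerivAt (0 : ℝ) (hasDerivAt_Fx hκ hx u v)).const_smul (1/2 : ℝ)
  have h5 : ∀ᶠ t in 𝓝 (0 : ℝ), AE κ ε (x + t • u) v
      = (1/2 : ℝ) • qimL (Fx κ ε ‖x + t • u‖⁻¹ (x + t • u) v) := by
    have hc : ContinuousAt (fun t : ℝ => x + t • u) 0 := (hasDerivAt_line x u).continuousAt
    have : ∀ᶠ t in 𝓝 (0 : ℝ), x + t • u ≠ 0 := hc.eventually_ne (by simpa using hx)
    filter_upwards [this] with t ht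
    exact AE_eq κ ε ht v
  exact h3.unique (h4.congr_of_eventuallyEq h5)

lemma AE_eq' {κ ε : ℝ} (hκ : |κ| ≤ 1/10) {x : E3} (hx : x ≠ 0) (u : E3) :
    AE κ ε x u = (1/2 : ℝ) • qimL ((‖x‖⁻¹ * (sg κ (nn x))⁻¹) • Gp κ ε (nn x) u) := by
  have hn : ‖x‖ ≠ 0 := norm_ne_zero_iff.2 hx
  have hs0 : sg κ (nn x) ≠ 0 := (sg_pos_of_unit hκ (norm_nn hx)).ne'
  rw [AE_eq κ ε hx u]
  congr 2
  have hx' : x = ‖x‖ • nn x := by rw [nn, smul_smul, mul_inv_cancel₀ hn, one_smul]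
  have hs2 : 1 - κ * (‖x‖⁻¹ ^ 2 * Hb x x) = sg κ (nn x) := (sg_nn κ x).symm
  rw [Fx, hs2]
  set n := ‖x‖ with hndef
  set y := nn x with hydef
  have hxi : ∀ i, x i = n * y i := fun i => by
    have := congrArg (fun z : E3 => z i) hx'
    simpa using this
  have hcv : cr x u = n • cr y u := by
    ext i
    fin_cases i <;> simp only [Fin.zero_eta, Fin.mk_one, Fin.reduceFinMk, Fin.isValue, cr_0, cr_1, cr_2,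
      PiLp.smul_apply, smul_eq_mul, hxi] <;> ring
  have hpx : ⟪cr x (Hv x), u⟫ = n ^ 2 * ⟪cr y (Hv y), u⟫ := by
    simp only [inner_E3, cr_0, cr_1, cr_2, Hv_0, Hv_1, Hv_2, hxi]; ring
  rw [hcv, hpx, hxi 2, Gp, rr_eq]
  generalize sg κ y = s at hs0 ⊢
  generalize ⟪cr y (Hv y), u⟫ = a4
  ext i
  simp only [PiLp.add_apply, PiLp.smul_apply, smul_eq_mul, hxi]
  generalize cr y u i = b1
  field_simp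

lemma br_qimL (a b : E3) : br (qimL a) (qimL b) = (2 : ℝ) • qimL (cr a b) := by
  simp only [br, qimL_apply, cr_0, cr_1, cr_2]
  ext <;> simp <;> ring

lemma br_smul_smul (r s : ℝ) (a b : ℍ[ℝ]) : br (r • a) (s • b) = (r * s) • br a b := by
  simp only [br, smul_mul_smul_comm, smul_sub]
  rw [mul_comm s r]

lemma cr_smul_smul (r s : ℝ) (a b : E3) : cr (r • a) (s • b) = (r * s) • cr a b := by
  ext i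
  fin_cases i <;> simp only [Fin.zero_eta, Fin.mk_one, Fin.reduceFinMk, Fin.isValue, cr_0, cr_1, cr_2,
      PiLp.smul_apply, smul_eq_mul] <;> ring

-- Q2b
theorem Om_AE {κ ε : ℝ} (hκ : |κ| ≤ 1/10) {x : E3} (hx : x ≠ 0) (u v : E3) :
    Om (AE κ ε) x u v = (1/2 * (sg κ (nn x) ^ 2)⁻¹ * ‖x‖⁻¹ ^ 3 * ⟪x, cr u v⟫) • qimL (om κ ε (nn x)) := by
  have hn : ‖x‖ ≠ 0 := norm_ne_zero_iff.2 hx
  have hs0 : sg κ (nn x) ≠ 0 := (sg_pos_of_unit hκ (norm_nn hx)).ne'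
  have hy : (nn x) 0 ^ 2 + (nn x) 1 ^ 2 + (nn x) 2 ^ 2 = 1 := by
    rw [← norm_sq_E3, norm_nn hx, one_pow]
  have hkey := alg_key κ ε (nn x) u v hy
  have hin : ⟪nn x, cr u v⟫ = ‖x‖⁻¹ * ⟪x, cr u v⟫ := by
    rw [nn, real_inner_smul_left]
  rw [hin] at hkey
  rw [Om, fderiv_AE hκ hx, fderiv_AE hκ hx, AE_eq' hκ hx, AE_eq' hκ hx, br_smul_smul, br_qimL,
    cr_smul_smul, smul_smul, ← smul_sub, ← map_sub, ← smul_sub]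
  have e1 : (1/2 * (1/2) * 2 : ℝ) = 1/2 := by norm_num
  rw [e1, ← smul_add, ← map_add]
  have e2 : ‖x‖⁻¹ * (sg κ (nn x))⁻¹ * (‖x‖⁻¹ * (sg κ (nn x))⁻¹) = ‖x‖⁻¹ ^ 2 * (sg κ (nn x) ^ 2)⁻¹ := by
    rw [inv_pow]; ring
  rw [e2, ← smul_add, hkey, smul_smul, map_smul, smul_smul]
  congr 1
  ring

end Pool.Agent.Helper57.HP
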